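import Pool.Agent.W682.BQ.Stm

set_option autoImplicit false

namespace Pool.Agent.W779.BQ.Cut

open Pool.Agent.W488.IW Pool.Agent.W488.IX Pool.Agent.W682.BQ

lemma deriv_bounded : ∃ M : ℝ, 0 < M ∧ ∀ t, |deriv Real.smoothTransition t| ≤ M := by
  have hc : Continuous (deriv Real.smoothTransition) :=
    (Real.smoothTransition.contDiff (n := 1)).continuous_deriv le_rfl
  have hs : HasCompactSupport (deriv Real.smoothTransition) := by
    refine HasCompactSupport.intro (K := Set.Icc (0 : ℝ) 1) isCompact_Icc fun t ht => ?_
    rcases lt_or_ge t 0 with h | h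
    · have : Real.smoothTransition =ᶠ[nhds t] fun _ => (0 : ℝ) := by
        filter_upwards [Iio_mem_nhds h] with s hs
        exact Real.smoothTransition.zero_of_nonpos (le_of_lt hs)
      rw [this.deriv_eq]; simp
    · have h1 : 1 < t := by
        by_contra hcon
        exact ht ⟨h, not_lt.1 hcon⟩
      have : Real.smoothTransition =ᶠ[nhds t] fun _ => (1 : ℝ) := by
        filter_upwards [Ioi_mem_nhds h1] with s hs
        exact Real.smoothTransition.one_of_one_le (le_of_lt hs)
      rw [this.deriv_eq]; simp
  obtain ⟨M, hM⟩ := hs.exists_bound_of_continuous hc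
  refine ⟨|M| + 1, by positivity, fun t => ?_⟩
  have := hM t
  rw [Real.norm_eq_abs] at this
  have h2 := le_abs_self M
  linarith

theorem main : S_CUT := by
  intro η hη
  obtain ⟨M, hM, hb⟩ := deriv_bounded
  set c : ℝ := η / M with hc
  have hc0 : 0 < c := div_pos hη hM
  refine ⟨fun t => 1 - Real.smoothTransition ((t - 2) * c), ?_, ?_, ?_, ?_, ?_, ?_⟩
  · exact contDiff_const.sub (Real.smoothTransition.contDiff.comp
      ((contDiff_id.sub contDiff_const).mul contDiff_const))
  · intro t
    have := Real.smoothTransition.le_one ((t - 2) * c)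
    linarith
  · intro t
    have := Real.smoothTransition.nonneg ((t - 2) * c)
    linarith
  · intro t ht
    have : (t - 2) * c ≤ 0 := mul_nonpos_of_nonpos_of_nonneg (by linarith) hc0.le
    show 1 - Real.smoothTransition ((t - 2) * c) = 1
    rw [Real.smoothTransition.zero_of_nonpos this, sub_zero]
  · intro t
    have h1 : HasDerivAt (fun t : ℝ => (t - 2) * c) c t := by
      simpa using ((hasDerivAt_id t).sub_const 2).mul_const c
    have h2 : HasDerivAt Real.smoothTransition (deriv Real.smoothTransition ((t - 2) * c))
        ((t - 2) * c) :=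
      (((Real.smoothTransition.contDiff (n := 1)).differentiable one_ne_zero) _).hasDerivAt
    have h3 : HasDerivAt (fun t : ℝ => 1 - Real.smoothTransition ((t - 2) * c))
        (-(deriv Real.smoothTransition ((t - 2) * c) * c)) t := by
      have := (h2.comp t h1).const_sub 1
      exact this
    rw [h3.deriv, abs_neg, abs_mul, abs_of_pos hc0]
    calc |deriv Real.smoothTransition ((t - 2) * c)| * c ≤ M * c :=
          mul_le_mul_of_nonneg_right (hb _) hc0.le
      _ = η := by rw [hc]; field_simp
  · refine ⟨2 + 1 / c, fun t ht => ?_⟩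
    have : 1 ≤ (t - 2) * c := by
      have h1 : 1 / c ≤ t - 2 := by linarith
      rwa [div_le_iff₀ hc0] at h1
    show 1 - Real.smoothTransition ((t - 2) * c) = 0
    rw [Real.smoothTransition.one_of_one_le this, sub_self]

end Pool.Agent.W779.BQ.Cut
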